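import Pool.Agent.Q236.CR.Stm
import Pool.Agent.Y125.VK.Shift

/-!
# Project CR, job SHB: from the sums of `e(β n) n^{-it}` to bilinear sums
-/

set_option autoImplicit false

namespace Pool.Agent.Q53.CR

open Pool.Agent.Y957.VK Finset Pool.Agent.Y125.VK
open Pool.Agent.H469R2.NK (e)
open Pool.Agent.Q236.CR

theorem norm_e' (x : ℝ) : ‖e x‖ = 1 := by
  unfold e
  exact Complex.norm_exp_ofReal_mul_I _

theorem e_add' (x y : ℝ) : e (x + y) = e x * e y := by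
  unfold e
  rw [← Complex.exp_add]
  congr 1
  push_cast
  ring

theorem nt_eq (t : ℝ) (n : ℕ) : nt t n = (n : ℂ) ^ (-(t : ℂ) * Complex.I) := rfl

theorem norm_nt (t : ℝ) (n : ℕ) (hn : 1 ≤ n) : ‖nt t n‖ = 1 := norm_cpow t n hn

/-- one term -/
theorem term_bound (t : ℝ) (N n M r x y : ℕ) (hN : 1 ≤ N) (hn : N < n) (hx : x ∈ Finset.Icc 1 M)
    (hy : y ∈ Finset.Icc 1 M) :
    ‖((n + x * y : ℕ) : ℂ) ^ (-(t : ℂ) * Complex.I) - (n : ℂ) ^ (-(t : ℂ) * Complex.I) *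
        Complex.exp (2 * Real.pi * Complex.I *
          ((∑ j ∈ Finset.Icc 1 r, al t n j * ((x : ℝ) * y) ^ j : ℝ) : ℂ))‖ ≤
      |t| * ((M : ℝ) ^ 2 / N) ^ (r + 1) := by
  have hn1 : 1 ≤ n := by omega
  have hN0 : (0 : ℝ) < N := by exact_mod_cast hN
  have hn0 : (0 : ℝ) < n := by exact_mod_cast hn1
  have hx' := Finset.mem_Icc.1 hx
  have hy' := Finset.mem_Icc.1 hy
  have h2 : Complex.exp (2 * Real.pi * Complex.I *
        ((∑ j ∈ Finset.Icc 1 r, al t n j * ((x : ℝ) * y) ^ j : ℝ) : ℂ)) =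
      Complex.exp (Complex.I * ((-t * Lr r ((x : ℝ) * y / n) : ℝ) : ℂ)) := by
    rw [← phase_eq t n r x y hn1]
    congr 1
    push_cast
    ring
  rw [h2, term_eq t n r x y hn1, ← mul_sub, norm_mul, norm_cpow t n hn1, one_mul]
  refine (exp_sub_le _ _).trans ?_
  rw [← mul_sub, abs_mul, abs_neg]
  refine mul_le_mul_of_nonneg_left ?_ (abs_nonneg _)
  refine (log_bound r _ (by positivity)).trans ?_
  refine pow_le_pow_left₀ (by positivity) ?_ _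
  have h3 : (x : ℝ) ≤ M := by exact_mod_cast hx'.2
  have h4 : (y : ℝ) ≤ M := by exact_mod_cast hy'.2
  have h5 : (N : ℝ) ≤ n := by exact_mod_cast hn.le
  have h6 : (x : ℝ) * y ≤ (M : ℝ) ^ 2 := by
    rw [sq]
    exact mul_le_mul h3 h4 (by positivity) (by positivity)
  exact div_le_div₀ (by positivity) h6 hN0 h5

/-- the phase with the additional linear term -/
theorem alb_sum (β t : ℝ) (n r x y : ℕ) (hr : 1 ≤ r) :
    ∑ j ∈ Finset.Icc 1 r, alb β t n j * ((x : ℝ) * y) ^ j =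
      ∑ j ∈ Finset.Icc 1 r, al t n j * ((x : ℝ) * y) ^ j + β * (x * y) := by
  unfold alb
  simp only [add_mul, Finset.sum_add_distrib]
  congr 1
  have h1 : ∀ j ∈ Finset.Icc 1 r, (if j = 1 then β else 0) * ((x : ℝ) * y) ^ j =
      if j = 1 then β * ((x : ℝ) * y) else 0 := by
    intro j _
    by_cases h : j = 1
    · subst h
      simp
    · simp [h]
  rw [Finset.sum_congr rfl h1, Finset.sum_ite_eq' (Finset.Icc 1 r) 1]
  rw [if_pos (Finset.mem_Icc.2 ⟨le_rfl, hr⟩)]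

theorem exp_alb (β t : ℝ) (n r x y : ℕ) (hr : 1 ≤ r) :
    Complex.exp (2 * Real.pi * Complex.I *
        ((∑ j ∈ Finset.Icc 1 r, alb β t n j * ((x : ℝ) * y) ^ j : ℝ) : ℂ)) =
      Complex.exp (2 * Real.pi * Complex.I *
        ((∑ j ∈ Finset.Icc 1 r, al t n j * ((x : ℝ) * y) ^ j : ℝ) : ℂ)) * e (β * (x * y)) := by
  rw [alb_sum β t n r x y hr]
  unfold e
  rw [← Complex.exp_add]
  congr 1
  push_cast
  ring

/-- one value of `n` -/
theorem inner' (t β : ℝ) (N n M r : ℕ) (hN : 1 ≤ N) (hn : N < n) (hr : 1 ≤ r) :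
    ‖∑ x ∈ Finset.Icc 1 M, ∑ y ∈ Finset.Icc 1 M,
        e (β * ((n + x * y : ℕ) : ℝ)) * nt t (n + x * y)‖ ≤
      ‖TT r M (alb β t n)‖ + (M : ℝ) ^ 2 * (|t| * ((M : ℝ) ^ 2 / N) ^ (r + 1)) := by
  have hn1 : 1 ≤ n := by omega
  have h1 : ∀ x ∈ Finset.Icc 1 M, ∀ y ∈ Finset.Icc 1 M,
      ‖e (β * ((n + x * y : ℕ) : ℝ)) * nt t (n + x * y) - (e (β * n) * nt t n) *
        Complex.exp (2 * Real.pi * Complex.I *
          ((∑ j ∈ Finset.Icc 1 r, alb β t n j * ((x : ℝ) * y) ^ j : ℝ) : ℂ))‖ ≤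
      |t| * ((M : ℝ) ^ 2 / N) ^ (r + 1) := by
    intro x hx y hy
    have h2 : e (β * ((n + x * y : ℕ) : ℝ)) = e (β * n) * e (β * (x * y)) := by
      rw [← e_add']
      congr 1
      push_cast
      ring
    have h3 : e (β * ((n + x * y : ℕ) : ℝ)) * nt t (n + x * y) - (e (β * n) * nt t n) *
        Complex.exp (2 * Real.pi * Complex.I *
          ((∑ j ∈ Finset.Icc 1 r, alb β t n j * ((x : ℝ) * y) ^ j : ℝ) : ℂ)) =
        e (β * n) * e (β * (x * y)) * (((n + x * y : ℕ) : ℂ) ^ (-(t : ℂ) * Complex.I) -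
        (n : ℂ) ^ (-(t : ℂ) * Complex.I) * Complex.exp (2 * Real.pi * Complex.I *
          ((∑ j ∈ Finset.Icc 1 r, al t n j * ((x : ℝ) * y) ^ j : ℝ) : ℂ))) := by
      rw [exp_alb β t n r x y hr, h2, nt_eq, nt_eq]
      ring
    rw [h3, norm_mul, norm_mul, norm_e', norm_e', one_mul, one_mul]
    exact term_bound t N n M r x y hN hn hx hy
  have h2 : ∑ x ∈ Finset.Icc 1 M, ∑ y ∈ Finset.Icc 1 M,
      e (β * ((n + x * y : ℕ) : ℝ)) * nt t (n + x * y) =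
      (e (β * n) * nt t n) * TT r M (alb β t n) +
      ∑ x ∈ Finset.Icc 1 M, ∑ y ∈ Finset.Icc 1 M,
        (e (β * ((n + x * y : ℕ) : ℝ)) * nt t (n + x * y) - (e (β * n) * nt t n) *
        Complex.exp (2 * Real.pi * Complex.I *
          ((∑ j ∈ Finset.Icc 1 r, alb β t n j * ((x : ℝ) * y) ^ j : ℝ) : ℂ))) := by
    unfold TT
    simp only [Finset.sum_sub_distrib, Finset.mul_sum]
    ring
  rw [h2]
  refine (norm_add_le _ _).trans ?_
  rw [norm_mul, norm_mul, norm_e', norm_nt t n hn1, one_mul, one_mul]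
  refine add_le_add le_rfl ?_
  refine (norm_sum_le _ _).trans ?_
  refine (Finset.sum_le_sum fun x hx => (norm_sum_le _ _).trans
    (Finset.sum_le_sum fun y hy => h1 x hx y hy)).trans ?_
  simp only [Finset.sum_const, Nat.card_Icc, Nat.add_sub_cancel, nsmul_eq_mul]
  rw [sq]
  linarith

/-- the shift of a sum of numbers of modulus one -/
theorem shift_gen (g : ℕ → ℂ) (hg : ∀ n, 1 ≤ n → ‖g n‖ = 1) (N N' h : ℕ) (hNN : N ≤ N') :
    ‖∑ n ∈ Finset.Ioc N N', g n - ∑ n ∈ Finset.Ioc N N', g (n + h)‖ ≤ 2 * h := by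
  have hb : ∀ a b : ℕ, ‖∑ n ∈ Finset.Ioc a (a + b), g n‖ ≤ b := by
    intro a b
    refine (norm_sum_le _ _).trans ?_
    have h1 : ∀ n ∈ Finset.Ioc a (a + b), ‖g n‖ ≤ 1 := by
      intro n hn
      rw [hg n (by have := (Finset.mem_Ioc.1 hn).1; omega)]
    refine (Finset.sum_le_sum h1).trans ?_
    simp
  have h1 : ∑ n ∈ Finset.Ioc N N', g (n + h) = ∑ n ∈ Finset.Ioc (N + h) (N' + h), g n := by
    rw [← Finset.map_add_right_Ioc, Finset.sum_map]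
    rfl
  have h2 : ∑ n ∈ Finset.Ioc N N', g n + ∑ n ∈ Finset.Ioc N' (N' + h), g n =
      ∑ n ∈ Finset.Ioc N (N + h), g n + ∑ n ∈ Finset.Ioc (N + h) (N' + h), g n := by
    rw [Finset.sum_Ioc_consecutive g hNN (by omega),
      Finset.sum_Ioc_consecutive g (by omega) (by omega)]
  have h3 : ∑ n ∈ Finset.Ioc N N', g n - ∑ n ∈ Finset.Ioc N N', g (n + h) =
      ∑ n ∈ Finset.Ioc N (N + h), g n - ∑ n ∈ Finset.Ioc N' (N' + h), g n := by
    rw [h1]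
    linear_combination h2
  rw [h3]
  refine (norm_sub_le _ _).trans ?_
  linarith [hb N h, hb N' h]

theorem shb : S_SHB := by
  intro N N' M r t β hN hNN hN2 hM hMN hr
  obtain ⟨g, hg⟩ : ∃ g : ℕ → ℂ, ∀ n, g n = e (β * (n : ℝ)) * nt t n := ⟨_, fun _ => rfl⟩
  have hg1 : ∀ n, 1 ≤ n → ‖g n‖ = 1 := by
    intro n hn
    rw [hg, norm_mul, norm_e', norm_nt t n hn, one_mul]
  obtain ⟨S, hS⟩ : ∃ S, S = ∑ n ∈ Finset.Ioc N N', g n := ⟨_, rfl⟩
  have hS' : ∑ n ∈ Finset.Ioc N N', e (β * n) * nt t n = S := by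
    rw [hS]
    exact Finset.sum_congr rfl fun n _ => (hg n).symm
  rw [hS']
  have hM0 : (0 : ℝ) < M := by exact_mod_cast hM
  have h1 : (M : ℂ) ^ 2 * S = ∑ x ∈ Finset.Icc 1 M, ∑ y ∈ Finset.Icc 1 M,
      (S - ∑ n ∈ Finset.Ioc N N', g (n + x * y)) +
      ∑ n ∈ Finset.Ioc N N', ∑ x ∈ Finset.Icc 1 M, ∑ y ∈ Finset.Icc 1 M, g (n + x * y) := by
    have h2 : ∑ n ∈ Finset.Ioc N N', ∑ x ∈ Finset.Icc 1 M, ∑ y ∈ Finset.Icc 1 M, g (n + x * y) =
        ∑ x ∈ Finset.Icc 1 M, ∑ y ∈ Finset.Icc 1 M, ∑ n ∈ Finset.Ioc N N', g (n + x * y) := by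
      rw [Finset.sum_comm]
      refine Finset.sum_congr rfl fun x _ => ?_
      rw [Finset.sum_comm]
    rw [h2]
    simp only [Finset.sum_sub_distrib, Finset.sum_const, Nat.card_Icc, Nat.add_sub_cancel,
      nsmul_eq_mul]
    ring
  have h3 : (M : ℝ) ^ 2 * ‖S‖ ≤ (M : ℝ) ^ 2 * (2 * (M : ℝ) ^ 2) +
      ∑ n ∈ Finset.Ioc N N', (‖TT r M (alb β t n)‖ +
        (M : ℝ) ^ 2 * (|t| * ((M : ℝ) ^ 2 / N) ^ (r + 1))) := by
    have h4 : ‖(M : ℂ) ^ 2 * S‖ = (M : ℝ) ^ 2 * ‖S‖ := by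
      rw [norm_mul, norm_pow, Complex.norm_natCast]
    rw [← h4, h1]
    refine (norm_add_le _ _).trans (add_le_add ?_ ?_)
    · refine (norm_sum_le _ _).trans ?_
      refine (Finset.sum_le_sum (g := fun _ => (M : ℝ) * (2 * (M : ℝ) ^ 2)) fun x hx =>
        (norm_sum_le _ _).trans ?_).trans ?_
      · refine (Finset.sum_le_sum (g := fun _ => 2 * (M : ℝ) ^ 2) fun y hy => ?_).trans ?_
        · rw [hS]
          refine (shift_gen g hg1 N N' (x * y) hNN).trans ?_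
          have hx' : (x : ℝ) ≤ M := by exact_mod_cast (Finset.mem_Icc.1 hx).2
          have hy' : (y : ℝ) ≤ M := by exact_mod_cast (Finset.mem_Icc.1 hy).2
          have : (x : ℝ) * y ≤ M * M := mul_le_mul hx' hy' (by positivity) (by positivity)
          push_cast
          nlinarith
        · simp
      · simp only [Finset.sum_const, Nat.card_Icc, Nat.add_sub_cancel, nsmul_eq_mul]
        rw [sq]
        linarith
    · refine (norm_sum_le _ _).trans (Finset.sum_le_sum fun n hn => ?_)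
      have h5 := inner' t β N n M r hN (Finset.mem_Ioc.1 hn).1 hr
      simp only [hg]
      exact h5
  rw [Finset.sum_add_distrib] at h3
  have h5 : ∑ n ∈ Finset.Ioc N N', (M : ℝ) ^ 2 * (|t| * ((M : ℝ) ^ 2 / N) ^ (r + 1)) ≤
      (M : ℝ) ^ 2 * (N * |t| * ((M : ℝ) ^ 2 / N) ^ (r + 1)) := by
    rw [Finset.sum_const, Nat.card_Ioc, nsmul_eq_mul]
    have h6 : ((N' - N : ℕ) : ℝ) ≤ N := by exact_mod_cast (by omega : N' - N ≤ N)
    have h7 : 0 ≤ (M : ℝ) ^ 2 * (|t| * ((M : ℝ) ^ 2 / N) ^ (r + 1)) := by positivity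
    calc _ ≤ (N : ℝ) * ((M : ℝ) ^ 2 * (|t| * ((M : ℝ) ^ 2 / N) ^ (r + 1))) :=
          mul_le_mul_of_nonneg_right h6 h7
      _ = _ := by ring
  have h8 : (0 : ℝ) < (M : ℝ) ^ 2 := by positivity
  have h9 : (M : ℝ) ^ 2 * ‖S‖ ≤ (M : ℝ) ^ 2 * (1 / (M : ℝ) ^ 2 *
      ∑ n ∈ Finset.Ioc N N', ‖TT r M (alb β t n)‖ + 2 * (M : ℝ) ^ 2 +
      N * |t| * ((M : ℝ) ^ 2 / N) ^ (r + 1)) := by
    have h10 : (M : ℝ) ^ 2 * (1 / (M : ℝ) ^ 2 *
      ∑ n ∈ Finset.Ioc N N', ‖TT r M (alb β t n)‖ + 2 * (M : ℝ) ^ 2 +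
      N * |t| * ((M : ℝ) ^ 2 / N) ^ (r + 1)) = ∑ n ∈ Finset.Ioc N N', ‖TT r M (alb β t n)‖ +
        (M : ℝ) ^ 2 * (2 * (M : ℝ) ^ 2) + (M : ℝ) ^ 2 *
          (N * |t| * ((M : ℝ) ^ 2 / N) ^ (r + 1)) := by
      field_simp
    rw [h10]
    linarith
  exact le_of_mul_le_mul_left h9 h8

end Pool.Agent.Q53.CR
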