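import Pool.Agent.Q236.CR.Stm
import Pool.Agent.Y125.VK.Shift
import Pool.Agent.Q83.WG.SA
import Pool.Agent.Q53.CR.SHB

/-!
# Project CR, job SDB: second derivative test for `e(β n) n^{-it}`
-/

set_option autoImplicit false

namespace Pool.Agent.Q53.CR

open Finset Pool.Agent.Y125.VK
open Pool.Agent.H469R2.NK (e)
open Pool.Agent.Q236.CR
open Pool.Agent.Q83.WG (dd vdc2)

theorem nt_e (t : ℝ) (n : ℕ) (hn : 1 ≤ n) : nt t n = e (-(t / (2 * Real.pi)) * Real.log n) := by
  rw [nt_eq, cpow_eq t n hn]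
  unfold e
  congr 1
  have hpi : Real.pi ≠ 0 := Real.pi_ne_zero
  have h1 : 2 * Real.pi * (-(t / (2 * Real.pi)) * Real.log n) = -t * Real.log n := by
    field_simp
  rw [h1]
  ring

theorem conj_e' (x : ℝ) : (starRingEnd ℂ) (e x) = e (-x) := by
  unfold e
  rw [← Complex.exp_conj]
  congr 1
  rw [map_mul, Complex.conj_I, Complex.conj_ofReal]
  push_cast
  ring

/-- second differences of the logarithm -/
theorem log_dd (y : ℝ) (hy : 1 ≤ y) : 1 / (y + 1) ^ 2 ≤
      2 * Real.log (y + 1) - Real.log y - Real.log (y + 2) ∧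
    2 * Real.log (y + 1) - Real.log y - Real.log (y + 2) ≤ 1 / y ^ 2 ∧
    2 * Real.log (y + 1) - Real.log y - Real.log (y + 2) = Real.log (1 + 1 / (y * (y + 2))) := by
  have hy0 : 0 < y := by linarith
  have h1 : 2 * Real.log (y + 1) - Real.log y - Real.log (y + 2) =
      Real.log (1 + 1 / (y * (y + 2))) := by
    have h2 : 1 + 1 / (y * (y + 2)) = (y + 1) ^ 2 / (y * (y + 2)) := by
      field_simp
      ring
    rw [h2, Real.log_div (by positivity) (by positivity), Real.log_pow,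
      Real.log_mul hy0.ne' (by positivity)]
    push_cast
    ring
  refine ⟨?_, ?_, h1⟩
  · rw [h1]
    have h3 := Real.one_sub_inv_le_log_of_pos (x := 1 + 1 / (y * (y + 2))) (by positivity)
    refine le_trans (le_of_eq ?_) h3
    field_simp
    ring
  · rw [h1]
    have h3 := Real.log_le_sub_one_of_pos (x := 1 + 1 / (y * (y + 2))) (by positivity)
    refine h3.trans ?_
    rw [add_sub_cancel_left]
    apply one_div_le_one_div_of_le (by positivity)
    nlinarith

/-- positive `t`, not too large -/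
theorem sd_pos (N N' : ℕ) (t β : ℝ) (hN : 1 ≤ N) (hNN : N < N') (hN2 : N' ≤ 2 * N) (ht : 1 ≤ t)
    (htN : t ≤ (N : ℝ) ^ 2) :
    ‖∑ n ∈ Finset.Ioc N N', e (β * n) * nt t n‖ ^ 2 ≤
      202 * (t + 2 * N + (N : ℝ) ^ 2 / t) * (1 + Real.log N) := by
  obtain ⟨L, hL⟩ : ∃ L, N' = N + L := ⟨N' - N, by omega⟩
  have hL1 : 1 ≤ L := by omega
  have hLN : L ≤ N := by omega
  have hN0 : (0 : ℝ) < N := by exact_mod_cast hN
  have hN1 : (1 : ℝ) ≤ N := by exact_mod_cast hN
  have hpi := Real.pi_pos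
  have hpi3 := Real.pi_gt_three
  have hpi4 := Real.pi_lt_d2
  have ht0 : 0 < t := by linarith
  obtain ⟨x, hx⟩ : ∃ x : ℕ → ℝ, ∀ m, x m = β * ((N' : ℝ) - m) +
      (-(t / (2 * Real.pi)) * Real.log ((N' : ℝ) - m)) := ⟨_, fun _ => rfl⟩
  have hsum : ∑ n ∈ Finset.Ioc N N', e (β * n) * nt t n = ∑ m ∈ Finset.range L, e (x m) := by
    refine Finset.sum_nbij' (fun n => N' - n) (fun m => N' - m) ?_ ?_ ?_ ?_ ?_
    · intro n hn
      have := Finset.mem_Ioc.1 hn
      simp only [Finset.mem_range]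
      omega
    · intro m hm
      have := Finset.mem_range.1 hm
      simp only [Finset.mem_Ioc]
      omega
    · intro n hn
      have := Finset.mem_Ioc.1 hn
      omega
    · intro m hm
      have := Finset.mem_range.1 hm
      omega
    · intro n hn
      have h1 := Finset.mem_Ioc.1 hn
      rw [hx, nt_e t n (by omega), ← e_add', Nat.cast_sub h1.2, sub_sub_cancel]
  have hdd : ∀ m, m + 2 ≤ L → dd x m = t / (2 * Real.pi) *
      (2 * Real.log (((N' : ℝ) - m - 2) + 1) - Real.log ((N' : ℝ) - m - 2) -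
        Real.log (((N' : ℝ) - m - 2) + 2)) := by
    intro m hm
    unfold dd
    rw [hx, hx, hx]
    push_cast
    obtain ⟨y, hy⟩ : ∃ y, y = (N' : ℝ) - m - 2 := ⟨_, rfl⟩
    have e1 : (N' : ℝ) - (m + 2) = y := by rw [hy]; ring
    have e2 : (N' : ℝ) - (m + 1) = y + 1 := by rw [hy]; ring
    have e3 : (N' : ℝ) - m = y + 2 := by rw [hy]; ring
    rw [e1, e2, e3, add_sub_cancel_right]
    ring
  have hge : ∀ m, m + 2 ≤ L → (N : ℝ) ≤ (N' : ℝ) - m - 2 := by
    intro m hm
    have h1 : N + m + 2 ≤ N' := by omega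
    have h2 : ((N + m + 2 : ℕ) : ℝ) ≤ N' := by exact_mod_cast h1
    push_cast at h2
    linarith
  have hle : ∀ m : ℕ, (N' : ℝ) - m - 2 + 1 ≤ 2 * N := by
    intro m
    have h1 : (N' : ℝ) ≤ 2 * N := by exact_mod_cast hN2
    have h2 : (0 : ℝ) ≤ m := Nat.cast_nonneg m
    linarith
  have hc0 : 0 < t / (2 * Real.pi) := by positivity
  have hv := vdc2 x L hL1 (t / (2 * Real.pi) / (4 * (N : ℝ) ^ 2)) (t / (2 * Real.pi) / (N : ℝ) ^ 2)
    (by positivity)
    (by
      rw [div_le_iff₀ (by positivity), div_le_iff₀ (by positivity)]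
      nlinarith)
    (by
      intro m hm
      rw [hdd m hm]
      have h1 := (log_dd ((N' : ℝ) - m - 2) (hN1.trans (hge m hm))).1
      rw [div_eq_mul_one_div (t / (2 * Real.pi))]
      have h3 := hge m hm
      refine mul_le_mul_of_nonneg_left (le_trans ?_ h1) hc0.le
      apply one_div_le_one_div_of_le
      · have : 0 < (N' : ℝ) - m - 2 + 1 := by linarith
        positivity
      · have h2 := hle m
        nlinarith)
    (by
      intro m hm
      rw [hdd m hm]
      have h1 := (log_dd ((N' : ℝ) - m - 2) (hN1.trans (hge m hm))).2.1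
      rw [div_eq_mul_one_div (t / (2 * Real.pi))]
      refine mul_le_mul_of_nonneg_left (h1.trans ?_) hc0.le
      apply one_div_le_one_div_of_le
      · positivity
      · exact pow_le_pow_left₀ hN0.le (hge m hm) 2)
    (by
      intro m hm
      rw [hdd m (by omega), hdd (m + 1) (by omega)]
      refine mul_le_mul_of_nonneg_left ?_ hc0.le
      have g1 := hge m (by omega)
      have g2 := hge (m + 1) (by omega)
      push_cast at g2
      rw [(log_dd ((N' : ℝ) - m - 2) (by linarith)).2.2]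
      push_cast
      rw [(log_dd ((N' : ℝ) - (m + 1) - 2) (by linarith)).2.2]
      have g3 : 0 < (N' : ℝ) - (m + 1) - 2 := by linarith
      have g4 : 0 < (N' : ℝ) - m - 2 := by linarith
      apply Real.log_le_log (by positivity)
      have : 1 / (((N' : ℝ) - m - 2) * ((N' : ℝ) - m - 2 + 2)) ≤
          1 / (((N' : ℝ) - (m + 1) - 2) * ((N' : ℝ) - (m + 1) - 2 + 2)) := by
        apply one_div_le_one_div_of_le (by positivity)
        nlinarith
      linarith)
    (by
      apply div_le_div_of_nonneg_left hc0.le (by positivity)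
      nlinarith [sq_nonneg (N : ℝ)])
  rw [hsum]
  refine hv.trans ?_
  have hLr : (L : ℝ) ≤ N := by exact_mod_cast hLN
  have hL0 : (0 : ℝ) < L := by exact_mod_cast hL1
  have hlogL : Real.log L ≤ Real.log N := Real.log_le_log hL0 hLr
  have hlogN : 0 ≤ Real.log N := Real.log_nonneg hN1
  have hlogL0 : 0 ≤ Real.log L := Real.log_nonneg (by exact_mod_cast hL1)
  have b1 : 1 + 4 * (t / (2 * Real.pi) / (N : ℝ) ^ 2) * L ≤ 1 + t / N := by
    have : 4 * (t / (2 * Real.pi) / (N : ℝ) ^ 2) * L ≤ 4 * (t / (2 * Real.pi) / (N : ℝ) ^ 2) * N := by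
      gcongr
    have h2 : 4 * (t / (2 * Real.pi) / (N : ℝ) ^ 2) * N = t / N * (2 / Real.pi) := by
      field_simp
      ring
    have h3 : 2 / Real.pi ≤ 1 := by
      rw [div_le_one hpi]
      linarith
    have h4 : 0 ≤ t / N := by positivity
    nlinarith
  have b2 : (L : ℝ) + 4 / (t / (2 * Real.pi) / (4 * (N : ℝ) ^ 2)) * (1 + Real.log L) ≤
      101 * ((N + (N : ℝ) ^ 2 / t) * (1 + Real.log N)) := by
    have h1 : 4 / (t / (2 * Real.pi) / (4 * (N : ℝ) ^ 2)) = 32 * Real.pi * ((N : ℝ) ^ 2 / t) := by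
      field_simp
      ring
    rw [h1]
    have h2 : 32 * Real.pi ≤ 101 := by linarith
    have h3 : 0 ≤ (N : ℝ) ^ 2 / t := by positivity
    have h4 : 32 * Real.pi * ((N : ℝ) ^ 2 / t) * (1 + Real.log L) ≤
        101 * ((N : ℝ) ^ 2 / t) * (1 + Real.log N) := by
      gcongr
    have h5 : (L : ℝ) ≤ 101 * (N * (1 + Real.log N)) := by nlinarith
    calc _ ≤ 101 * (N * (1 + Real.log N)) + 101 * ((N : ℝ) ^ 2 / t) * (1 + Real.log N) :=
          add_le_add h5 h4
      _ = _ := by ring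
  calc 2 * (1 + 4 * (t / (2 * Real.pi) / (N : ℝ) ^ 2) * L) *
        ((L : ℝ) + 4 / (t / (2 * Real.pi) / (4 * (N : ℝ) ^ 2)) * (1 + Real.log L))
      ≤ 2 * (1 + t / N) * (101 * ((N + (N : ℝ) ^ 2 / t) * (1 + Real.log N))) := by
        gcongr
    _ = 202 * (t + 2 * N + (N : ℝ) ^ 2 / t) * (1 + Real.log N) := by
        field_simp
        ring

/-- positive `t` -/
theorem sd_pos' (N N' : ℕ) (t β : ℝ) (hN : 1 ≤ N) (hNN : N ≤ N') (hN2 : N' ≤ 2 * N) (ht : 1 ≤ t) :
    ‖∑ n ∈ Finset.Ioc N N', e (β * n) * nt t n‖ ≤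
      15 * (√t + N / √t) * (1 + Real.log N) := by
  have hN0 : (0 : ℝ) < N := by exact_mod_cast hN
  have hN1 : (1 : ℝ) ≤ N := by exact_mod_cast hN
  have ht0 : 0 < t := by linarith
  have hlogN : 0 ≤ Real.log N := Real.log_nonneg hN1
  have hst : 0 < √t := Real.sqrt_pos.2 ht0
  rcases lt_or_ge ((N : ℝ) ^ 2) t with h | h
  · have h1 : ‖∑ n ∈ Finset.Ioc N N', e (β * n) * nt t n‖ ≤ N := by
      refine (norm_sum_le _ _).trans ?_
      have h2 : ∀ n ∈ Finset.Ioc N N', ‖e (β * n) * nt t n‖ ≤ 1 := by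
        intro n hn
        rw [norm_mul, norm_e', norm_nt t n (by have := (Finset.mem_Ioc.1 hn).1; omega), one_mul]
      refine (Finset.sum_le_sum h2).trans ?_
      simp only [Finset.sum_const, Nat.card_Ioc, nsmul_eq_mul, mul_one]
      exact_mod_cast (by omega : N' - N ≤ N)
    have h2 : (N : ℝ) ≤ √t := Real.le_sqrt_of_sq_le h.le
    refine h1.trans ?_
    have h3 : 0 ≤ N / √t := by positivity
    nlinarith
  · rcases Nat.eq_or_lt_of_le hNN with h0 | h0
    · rw [← h0]
      simp only [Finset.Ioc_self, Finset.sum_empty, norm_zero]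
      positivity
    · have h1 := sd_pos N N' t β hN h0 hN2 ht h
      have h2 : (√t + N / √t) ^ 2 = t + 2 * N + (N : ℝ) ^ 2 / t := by
        rw [add_sq, div_pow, Real.sq_sqrt ht0.le]
        field_simp
      rw [← h2] at h1
      refine _root_.le_of_sq_le_sq ?_ (by positivity)
      refine h1.trans ?_
      have h3 : (1 : ℝ) + Real.log N ≤ (1 + Real.log N) ^ 2 := by nlinarith
      have h4 : 0 ≤ (√t + N / √t) ^ 2 := sq_nonneg _
      calc 202 * (√t + N / √t) ^ 2 * (1 + Real.log N) ≤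
            225 * (√t + N / √t) ^ 2 * (1 + Real.log N) ^ 2 := by
            gcongr
            norm_num
        _ = _ := by ring

theorem sdb : S_SDB := by
  refine ⟨15, by norm_num, ?_⟩
  intro N N' t β hN hNN hN2 ht
  rcases le_or_gt 0 t with h | h
  · rw [abs_of_nonneg h] at ht ⊢
    exact sd_pos' N N' t β hN hNN hN2 ht
  · rw [abs_of_neg h] at ht ⊢
    have h1 := sd_pos' N N' (-t) (-β) hN hNN hN2 ht
    have h2 : ∑ n ∈ Finset.Ioc N N', e (-β * n) * nt (-t) n =
        (starRingEnd ℂ) (∑ n ∈ Finset.Ioc N N', e (β * n) * nt t n) := by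
      rw [map_sum]
      refine Finset.sum_congr rfl fun n hn => ?_
      have hn1 : 1 ≤ n := by have := (Finset.mem_Ioc.1 hn).1; omega
      rw [map_mul, nt_e t n hn1, nt_e (-t) n hn1, conj_e', conj_e']
      congr 2 <;> ring
    rw [h2, RCLike.norm_conj] at h1
    exact h1

end Pool.Agent.Q53.CR
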