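import Mathlib

/-!
# Project CR, job WV, part 1: elementary lemmas
-/

set_option autoImplicit false

namespace Pool.Agent.Q53.CR

open Finset Filter
open ArithmeticFunction (liouville moebius)

/-! ### the Liouville function -/

lemma sq_dvd_sqfree {a b d : ℕ} (ha : Squarefree a) (hb : b ≠ 0) (h : d ^ 2 ∣ b ^ 2 * a) : d ∣ b := by
  have hd : d ≠ 0 := by
    rintro rfl
    rw [zero_pow two_ne_zero, zero_dvd_iff] at h
    rcases mul_eq_zero.1 h with h1 | h1
    · exact hb (pow_eq_zero_iff two_ne_zero |>.1 h1)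
    · exact ha.ne_zero h1
  obtain ⟨g, d', b', hg, hc, rfl, rfl⟩ := Nat.exists_coprime' (m := d) (n := b)
    (Nat.gcd_pos_of_pos_left _ (Nat.pos_of_ne_zero hd))
  have h2 : g ^ 2 * d' ^ 2 ∣ g ^ 2 * (b' ^ 2 * a) := by
    have e1 : (d' * g) ^ 2 = g ^ 2 * d' ^ 2 := by ring
    have e2 : (b' * g) ^ 2 * a = g ^ 2 * (b' ^ 2 * a) := by ring
    rwa [e1, e2] at h
  have h3 : d' ^ 2 ∣ b' ^ 2 * a := Nat.dvd_of_mul_dvd_mul_left (by positivity) h2
  have h4 : d' ^ 2 ∣ a := (Nat.Coprime.pow 2 2 hc).dvd_of_dvd_mul_left h3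
  have h5 : IsUnit d' := ha d' (by rwa [← sq])
  rw [Nat.isUnit_iff] at h5
  rw [h5, one_mul]
  exact Dvd.intro_left b' rfl

/-- the truncated formula -/
lemma liou_split (n D0 : ℕ) (hn : 1 ≤ n) :
    (∑ d ∈ Finset.Icc 1 D0, if d ^ 2 ∣ n then moebius (n / d ^ 2) else 0) = liouville n ∨
    ((∑ d ∈ Finset.Icc 1 D0, if d ^ 2 ∣ n then moebius (n / d ^ 2) else 0) = 0 ∧
      ∃ d, D0 < d ∧ d ^ 2 ∣ n) := by
  obtain ⟨a, b, hab, ha⟩ := Nat.sq_mul_squarefree n
  have ha0 : a ≠ 0 := ha.ne_zero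
  have hb0 : b ≠ 0 := by
    rintro rfl
    rw [zero_pow two_ne_zero, zero_mul] at hab
    omega
  have hterm : ∀ d ∈ Finset.Icc 1 D0, d ≠ b → (if d ^ 2 ∣ n then moebius (n / d ^ 2) else 0) = 0 := by
    intro d hd hdb
    split_ifs with h
    · have h1 : d ∣ b := sq_dvd_sqfree ha hb0 (by rwa [hab])
      obtain ⟨c, rfl⟩ := h1
      have hd0 : d ≠ 0 := by
        rintro rfl
        simp at hb0
      have h2 : n / d ^ 2 = c ^ 2 * a := by
        rw [← hab, mul_pow, mul_assoc]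
        exact Nat.mul_div_cancel_left _ (by positivity)
      rw [h2]
      apply ArithmeticFunction.moebius_eq_zero_of_not_squarefree
      intro h3
      have h4 : IsUnit c := h3 c (by
        rw [sq]
        exact Dvd.intro _ rfl)
      rw [Nat.isUnit_iff] at h4
      apply hdb
      rw [h4, mul_one]
    · rfl
  by_cases hbD : b ∈ Finset.Icc 1 D0
  · left
    rw [Finset.sum_eq_single_of_mem b hbD hterm, if_pos (by rw [← hab]; exact Dvd.intro _ rfl)]
    have h1 : n / b ^ 2 = a := by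
      rw [← hab]
      exact Nat.mul_div_cancel_left _ (by positivity)
    rw [h1, ← hab, ArithmeticFunction.liouville_apply_mul, sq b,
      ArithmeticFunction.liouville_apply_mul, ArithmeticFunction.liouville_apply ha0,
      ArithmeticFunction.liouville_apply hb0, ArithmeticFunction.moebius_apply_of_squarefree ha,
      ← pow_add, ← two_mul, pow_mul]
    simp
  · right
    refine ⟨Finset.sum_eq_zero fun d hd => hterm d hd ?_, b, ?_, ?_⟩
    · rintro rfl
      exact hbD hd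
    · rw [Finset.mem_Icc] at hbD
      omega
    · rw [← hab]
      exact Dvd.intro _ rfl

/-! ### sums over multiples -/

lemma win_d (D m M : ℕ) (hD : 0 < D) (F : ℕ → ℂ) :
    ∑ n ∈ Finset.Ioc m M, (if D ∣ n then F n else 0) = ∑ k ∈ Finset.Ioc (m / D) (M / D), F (D * k) := by
  rw [← Finset.sum_filter]
  symm
  refine Finset.sum_nbij' (fun k => D * k) (fun n => n / D) ?_ ?_ ?_ ?_ ?_
  · intro k hk
    rw [Finset.mem_Ioc] at hk
    rw [Finset.mem_filter, Finset.mem_Ioc]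
    refine ⟨⟨?_, ?_⟩, Dvd.intro _ rfl⟩
    · have := (Nat.div_lt_iff_lt_mul hD).1 hk.1
      rwa [mul_comm]
    · have := (Nat.le_div_iff_mul_le hD).1 hk.2
      rwa [mul_comm]
  · intro n hn
    rw [Finset.mem_filter, Finset.mem_Ioc] at hn
    obtain ⟨⟨h1, h2⟩, k, rfl⟩ := hn
    rw [Finset.mem_Ioc, Nat.mul_div_cancel_left _ hD]
    constructor
    · rw [Nat.div_lt_iff_lt_mul hD, mul_comm]
      exact h1
    · rw [Nat.le_div_iff_mul_le hD, mul_comm]
      exact h2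
  · intro k _
    exact Nat.mul_div_cancel_left _ hD
  · intro n hn
    rw [Finset.mem_filter] at hn
    exact Nat.mul_div_cancel' hn.2
  · intro k _
    rfl

/-- the window of multiples is a window of the standard length, up to one term -/
lemma win_v (D m Y : ℕ) (hD : 0 < D) (F : ℕ → ℂ) (hF : ∀ k, ‖F k‖ ≤ 1) :
    ‖∑ k ∈ Finset.Ioc (m / D) ((m + Y) / D), F k‖ ≤
      ‖∑ k ∈ Finset.Ioc (m / D) (m / D + Y / D), F k‖ + 1 := by
  have h1 : (m + Y) / D = m / D + Y / D ∨ (m + Y) / D = m / D + Y / D + 1 := by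
    rw [Nat.add_div hD]
    split_ifs
    · right; rfl
    · left; rfl
  rcases h1 with h | h
  · rw [h]
    linarith [norm_nonneg (∑ k ∈ Finset.Ioc (m / D) (m / D + Y / D), F k)]
  · rw [h, Finset.sum_Ioc_succ_top (Nat.le_add_right _ _)]
    refine (norm_add_le _ _).trans ?_
    linarith [hF (m / D + Y / D + 1)]

/-- the fibres of the division by `D` -/
lemma sum_div (x D : ℕ) (hD : 0 < D) (G : ℕ → ℝ) (hG : ∀ n, 0 ≤ G n) :
    ∑ m ∈ Finset.Ioc x (2 * x), G (m / D) ≤ D * ∑ k ∈ Finset.Icc (x / D) (2 * (x / D) + 1), G k := by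
  have hmaps : ∀ m ∈ Finset.Ioc x (2 * x), m / D ∈ Finset.Icc (x / D) (2 * (x / D) + 1) := by
    intro m hm
    rw [Finset.mem_Ioc] at hm
    rw [Finset.mem_Icc]
    constructor
    · exact Nat.div_le_div_right hm.1.le
    · have h1 : x < D * (x / D + 1) := by
        have := Nat.lt_mul_div_succ x hD
        exact this
      have h2 : m < D * (2 * (x / D) + 2) := by nlinarith
      have h3 : m / D < 2 * (x / D) + 2 := by
        rw [Nat.div_lt_iff_lt_mul hD, mul_comm]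
        exact h2
      omega
  rw [← Finset.sum_fiberwise_of_maps_to hmaps, Finset.mul_sum]
  refine Finset.sum_le_sum fun k _ => ?_
  have h1 : ∑ m ∈ (Finset.Ioc x (2 * x)).filter (fun m => m / D = k), G (m / D) =
      ∑ m ∈ (Finset.Ioc x (2 * x)).filter (fun m => m / D = k), G k := by
    refine Finset.sum_congr rfl fun m hm => ?_
    rw [(Finset.mem_filter.1 hm).2]
  rw [h1, Finset.sum_const, nsmul_eq_mul]
  refine mul_le_mul_of_nonneg_right ?_ (hG k)
  have h2 : (Finset.Ioc x (2 * x)).filter (fun m => m / D = k) ⊆ Finset.Ico (D * k) (D * k + D) := by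
    intro m hm
    obtain ⟨-, h⟩ := Finset.mem_filter.1 hm
    rw [Finset.mem_Ico]
    subst h
    constructor
    · exact Nat.mul_div_le m D
    · have := Nat.lt_mul_div_succ m hD
      rw [Nat.mul_succ] at this
      exact this
  have h3 := Finset.card_le_card h2
  rw [Nat.card_Ico, Nat.add_sub_cancel_left] at h3
  exact_mod_cast h3

lemma cover (X : ℕ) (hX : 3 ≤ X) (G : ℕ → ℝ) (hG : ∀ n, 0 ≤ G n) :
    ∑ k ∈ Finset.Icc X (2 * X + 1), G k ≤ ∑ k ∈ Finset.Ioc (X - 1) (2 * (X - 1)), G k +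
      ∑ k ∈ Finset.Ioc (X + 1) (2 * (X + 1)), G k := by
  have h1 : Finset.Icc X (2 * X + 1) = Finset.Ioc (X - 1) (2 * X + 1) := by
    ext k
    rw [Finset.mem_Icc, Finset.mem_Ioc]
    omega
  rw [h1, ← Finset.sum_Ioc_consecutive G (show X - 1 ≤ 2 * (X - 1) by omega)
    (show 2 * (X - 1) ≤ 2 * X + 1 by omega)]
  refine add_le_add le_rfl ?_
  refine Finset.sum_le_sum_of_subset_of_nonneg ?_ fun k _ _ => hG k
  intro k hk
  rw [Finset.mem_Ioc] at hk ⊢
  omega

/-! ### integers with a large square divisor -/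

open Classical in
lemma bad_count (N D0 : ℕ) (hD : 0 < D0) :
    (((Finset.Icc 1 N).filter (fun n => ∃ d, D0 < d ∧ d ^ 2 ∣ n)).card : ℝ) ≤ N / D0 := by
  have h1 : (Finset.Icc 1 N).filter (fun n => ∃ d, D0 < d ∧ d ^ 2 ∣ n) ⊆
      (Finset.Ioc D0 (N + D0)).biUnion (fun d => (Finset.Icc 1 N).filter (fun n => d ^ 2 ∣ n)) := by
    intro n hn
    obtain ⟨h2, d, h3, h4⟩ := Finset.mem_filter.1 hn
    rw [Finset.mem_biUnion]
    refine ⟨d, ?_, Finset.mem_filter.2 ⟨h2, h4⟩⟩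
    rw [Finset.mem_Ioc]
    rw [Finset.mem_Icc] at h2
    have h5 := Nat.le_of_dvd (by omega) h4
    have h6 : d ≤ d ^ 2 := Nat.le_self_pow two_ne_zero d
    omega
  have h2 := (Finset.card_le_card h1).trans Finset.card_biUnion_le
  have h3 : ((∑ d ∈ Finset.Ioc D0 (N + D0), ((Finset.Icc 1 N).filter (fun n => d ^ 2 ∣ n)).card : ℕ) : ℝ)
      ≤ ∑ d ∈ Finset.Ioc D0 (N + D0), N * ((d : ℝ) ^ 2)⁻¹ := by
    push_cast
    refine Finset.sum_le_sum fun d hd => ?_
    rw [Finset.mem_Ioc] at hd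
    have e1 : (Finset.Icc 1 N).filter (fun n => d ^ 2 ∣ n) =
        (Finset.Ioc 0 N).filter (fun n => d ^ 2 ∣ n) := rfl
    rw [e1, Nat.Ioc_filter_dvd_card_eq_div]
    have h4 := Nat.cast_div_le (α := ℝ) (m := N) (n := d ^ 2)
    push_cast at h4
    rw [← div_eq_mul_inv]
    exact h4
  have h4 : ∑ d ∈ Finset.Ioc D0 (N + D0), (N : ℝ) * ((d : ℝ) ^ 2)⁻¹ ≤ N / D0 := by
    rw [← Finset.mul_sum, div_eq_mul_inv]
    refine mul_le_mul_of_nonneg_left ?_ (Nat.cast_nonneg _)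
    have h5 := sum_Ioc_inv_sq_le_sub (α := ℝ) hD.ne' (show D0 ≤ N + D0 by omega)
    have h6 : (0 : ℝ) ≤ ((N + D0 : ℕ) : ℝ)⁻¹ := by positivity
    linarith
  exact (Nat.cast_le.2 h2).trans (h3.trans h4)

open Classical in
/-- the errors in the windows -/
lemma bad_sum (x Y D0 : ℕ) (hD : 0 < D0) (hY : Y ≤ x) :
    ∑ m ∈ Finset.Ioc x (2 * x),
      (((Finset.Ioc m (m + Y)).filter (fun n => ∃ d, D0 < d ∧ d ^ 2 ∣ n)).card : ℝ) ^ 2 ≤
      Y * (Y * (3 * x / D0)) := by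
  have h1 : ∀ m ∈ Finset.Ioc x (2 * x),
      (((Finset.Ioc m (m + Y)).filter (fun n => ∃ d, D0 < d ∧ d ^ 2 ∣ n)).card : ℝ) ^ 2 ≤
      Y * (((Finset.Ioc m (m + Y)).filter (fun n => ∃ d, D0 < d ∧ d ^ 2 ∣ n)).card : ℝ) := by
    intro m _
    rw [sq]
    refine mul_le_mul_of_nonneg_right ?_ (Nat.cast_nonneg _)
    have h2 := Finset.card_filter_le (Finset.Ioc m (m + Y)) (fun n => ∃ d, D0 < d ∧ d ^ 2 ∣ n)
    rw [Nat.card_Ioc, Nat.add_sub_cancel_left] at h2
    exact_mod_cast h2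
  refine (Finset.sum_le_sum h1).trans ?_
  rw [← Finset.mul_sum]
  refine mul_le_mul_of_nonneg_left ?_ (Nat.cast_nonneg _)
  obtain ⟨S, hS⟩ : ∃ S, S = (Finset.Icc 1 (3 * x)).filter (fun n => ∃ d, D0 < d ∧ d ^ 2 ∣ n) :=
    ⟨_, rfl⟩
  have h2 : ∑ m ∈ Finset.Ioc x (2 * x),
      ((Finset.Ioc m (m + Y)).filter (fun n => ∃ d, D0 < d ∧ d ^ 2 ∣ n)).card ≤
      ∑ m ∈ Finset.Ioc x (2 * x), ∑ n ∈ S, if m < n ∧ n ≤ m + Y then 1 else 0 := by
    refine Finset.sum_le_sum fun m hm => ?_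
    rw [Finset.card_eq_sum_ones, ← Finset.sum_filter]
    refine Finset.sum_le_sum_of_subset ?_
    intro n hn
    rw [Finset.mem_Ioc] at hm
    rw [Finset.mem_filter, Finset.mem_Ioc] at hn
    rw [Finset.mem_filter, hS, Finset.mem_filter, Finset.mem_Icc]
    refine ⟨⟨⟨by omega, by omega⟩, hn.2⟩, hn.1⟩
  have h3 : ∑ m ∈ Finset.Ioc x (2 * x), ∑ n ∈ S, (if m < n ∧ n ≤ m + Y then 1 else 0) ≤
      S.card * Y := by
    rw [Finset.sum_comm]
    refine (Finset.sum_le_card_nsmul S _ Y fun n _ => ?_).trans (le_of_eq (by simp))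
    rw [← Finset.sum_filter, ← Finset.card_eq_sum_ones]
    have h4 : (Finset.Ioc x (2 * x)).filter (fun m => m < n ∧ n ≤ m + Y) ⊆ Finset.Ico (n - Y) n := by
      intro m hm
      have := (Finset.mem_filter.1 hm).2
      rw [Finset.mem_Ico]
      omega
    refine (Finset.card_le_card h4).trans ?_
    rw [Nat.card_Ico]
    omega
  have h4 : ((∑ m ∈ Finset.Ioc x (2 * x),
      ((Finset.Ioc m (m + Y)).filter (fun n => ∃ d, D0 < d ∧ d ^ 2 ∣ n)).card : ℕ) : ℝ) ≤
      ((S.card * Y : ℕ) : ℝ) := by exact_mod_cast h2.trans h3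
  push_cast at h4
  refine h4.trans ?_
  have h5 := bad_count (3 * x) D0 hD
  rw [← hS] at h5
  push_cast at h5
  calc (S.card : ℝ) * Y ≤ (3 * x / D0) * Y := by gcongr
    _ = _ := by ring

end Pool.Agent.Q53.CR
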