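import Pool.Agent.Q236.CR.Stm2
import Pool.Agent.Q53.CR.WV1

/-!
# Project CR, job WV: the Liouville function in short intervals
-/

set_option autoImplicit false

namespace Pool.Agent.Q53.CR

open Finset Filter
open Pool.Agent.H469R2.NK (e)
open Pool.Agent.Q236.CR
open ArithmeticFunction (liouville moebius)

lemma norm_eR (x : ℝ) : ‖e x‖ = 1 := by
  unfold e
  exact Complex.norm_exp_ofReal_mul_I _

/-- the window of multiples of `d ^ 2` -/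
noncomputable def Wd (b q Y d m : ℕ) : ℂ :=
  ∑ k ∈ Finset.Ioc (m / d ^ 2) ((m + Y) / d ^ 2),
    ((moebius k : ℤ) : ℂ) * e (((b * d ^ 2 : ℕ) : ℝ) * k / q)

/-- the window of the standard length -/
noncomputable def Vd (b q Y d k0 : ℕ) : ℂ :=
  ∑ k ∈ Finset.Ioc k0 (k0 + Y / d ^ 2), ((moebius k : ℤ) : ℂ) * e (((b * d ^ 2 : ℕ) : ℝ) * k / q)

lemma term_le (k : ℕ) (t : ℝ) : ‖((moebius k : ℤ) : ℂ) * e t‖ ≤ 1 := by
  rw [norm_mul, norm_eR, mul_one]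
  have h : |moebius k| ≤ 1 := ArithmeticFunction.abs_moebius_le_one
  have h2 : ((|moebius k| : ℤ) : ℝ) ≤ 1 := by exact_mod_cast h
  rw [Complex.norm_intCast]
  push_cast at h2
  exact h2

lemma Wd_le (b q Y d m : ℕ) (hd : 1 ≤ d) : ‖Wd b q Y d m‖ ≤ ‖Vd b q Y d (m / d ^ 2)‖ + 1 :=
  win_v (d ^ 2) m Y (by positivity) (fun k => ((moebius k : ℤ) : ℂ) *
    e (((b * d ^ 2 : ℕ) : ℝ) * k / q)) fun k => term_le k _

open Classical in
/-- the window of the Liouville function -/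
lemma win_liou (b q Y D0 m : ℕ) :
    ‖∑ n ∈ Finset.Ioc m (m + Y), fV n * e ((b : ℝ) * n / q)‖ ≤
      ‖∑ d ∈ Finset.Icc 1 D0, Wd b q Y d m‖ +
      (((Finset.Ioc m (m + Y)).filter (fun n => ∃ d, D0 < d ∧ d ^ 2 ∣ n)).card : ℝ) := by
  have h1 : ∑ d ∈ Finset.Icc 1 D0, Wd b q Y d m = ∑ n ∈ Finset.Ioc m (m + Y),
      (((∑ d ∈ Finset.Icc 1 D0, if d ^ 2 ∣ n then moebius (n / d ^ 2) else 0 : ℤ)) : ℂ) *
        e ((b : ℝ) * n / q) := by
    have h2 : ∀ d ∈ Finset.Icc 1 D0, Wd b q Y d m = ∑ n ∈ Finset.Ioc m (m + Y),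
        (if d ^ 2 ∣ n then ((moebius (n / d ^ 2) : ℤ) : ℂ) * e ((b : ℝ) * n / q) else 0) := by
      intro d hd
      have hd1 : 1 ≤ d := (Finset.mem_Icc.1 hd).1
      rw [win_d (d ^ 2) m (m + Y) (by positivity)
        (fun n => ((moebius (n / d ^ 2) : ℤ) : ℂ) * e ((b : ℝ) * n / q))]
      unfold Wd
      refine Finset.sum_congr rfl fun k _ => ?_
      rw [Nat.mul_div_cancel_left _ (by positivity)]
      congr 2
      push_cast
      ring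
    rw [Finset.sum_congr rfl h2, Finset.sum_comm]
    refine Finset.sum_congr rfl fun n _ => ?_
    rw [Int.cast_sum, Finset.sum_mul]
    refine Finset.sum_congr rfl fun d _ => ?_
    split_ifs
    · rfl
    · simp
  have h3 : ∑ n ∈ Finset.Ioc m (m + Y), fV n * e ((b : ℝ) * n / q) =
      ∑ d ∈ Finset.Icc 1 D0, Wd b q Y d m + ∑ n ∈ Finset.Ioc m (m + Y),
        ((liouville n - (∑ d ∈ Finset.Icc 1 D0, if d ^ 2 ∣ n then moebius (n / d ^ 2) else 0) : ℤ) : ℂ)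
          * e ((b : ℝ) * n / q) := by
    rw [h1, ← Finset.sum_add_distrib]
    refine Finset.sum_congr rfl fun n _ => ?_
    unfold fV
    push_cast
    ring
  rw [h3]
  refine (norm_add_le _ _).trans (add_le_add le_rfl ?_)
  refine (norm_sum_le _ _).trans ?_
  rw [Finset.card_eq_sum_ones, Finset.sum_filter, Nat.cast_sum]
  refine Finset.sum_le_sum fun n hn => ?_
  rw [Nat.cast_ite, Nat.cast_one, Nat.cast_zero]
  have hn1 : 1 ≤ n := by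
    rw [Finset.mem_Ioc] at hn
    omega
  rcases liou_split n D0 hn1 with h | ⟨h, hd⟩
  · rw [h]
    simp only [sub_self, Int.cast_zero, zero_mul, norm_zero]
    split_ifs <;> norm_num
  · rw [h, if_pos hd, sub_zero, norm_mul, norm_eR, mul_one,
      ArithmeticFunction.liouville_apply (by omega)]
    simp

/-- the mean square of the windows, with explicit parameters -/
lemma ms (b q Y D0 x : ℕ) (hD : 0 < D0) (hY : Y ≤ x) (S : ℝ) (hS : 0 ≤ S)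
    (hX : ∀ d ∈ Finset.Icc 1 D0, 3 ≤ x / d ^ 2)
    (h1 : ∀ d ∈ Finset.Icc 1 D0, ∑ k ∈ Finset.Ioc (x / d ^ 2 - 1) (2 * (x / d ^ 2 - 1)),
      ‖Vd b q Y d k‖ ^ 2 ≤ S / (d : ℝ) ^ 2)
    (h2 : ∀ d ∈ Finset.Icc 1 D0, ∑ k ∈ Finset.Ioc (x / d ^ 2 + 1) (2 * (x / d ^ 2 + 1)),
      ‖Vd b q Y d k‖ ^ 2 ≤ S / (d : ℝ) ^ 2) :
    ∑ m ∈ Finset.Ioc x (2 * x), ‖∑ n ∈ Finset.Ioc m (m + Y), fV n * e ((b : ℝ) * n / q)‖ ^ 2 ≤
      2 * (D0 : ℝ) ^ 2 * (4 * S + 2 * x) + 2 * (Y * (Y * (3 * x / D0))) := by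
  classical
  have hone : ∀ d ∈ Finset.Icc 1 D0, ∑ m ∈ Finset.Ioc x (2 * x), ‖Wd b q Y d m‖ ^ 2 ≤
      4 * S + 2 * x := by
    intro d hd
    have hd1 : 1 ≤ d := (Finset.mem_Icc.1 hd).1
    have hd0 : (0 : ℝ) < d := by exact_mod_cast hd1
    have g1 : ∀ m ∈ Finset.Ioc x (2 * x), ‖Wd b q Y d m‖ ^ 2 ≤
        2 * ‖Vd b q Y d (m / d ^ 2)‖ ^ 2 + 2 := by
      intro m _
      have := Wd_le b q Y d m hd1
      have h0 := norm_nonneg (Wd b q Y d m)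
      have h00 := norm_nonneg (Vd b q Y d (m / d ^ 2))
      nlinarith [sq_nonneg (‖Vd b q Y d (m / d ^ 2)‖ - 1)]
    refine (Finset.sum_le_sum g1).trans ?_
    rw [Finset.sum_add_distrib, ← Finset.mul_sum]
    have g2 := sum_div x (d ^ 2) (by positivity) (fun k => ‖Vd b q Y d k‖ ^ 2)
      (fun k => sq_nonneg _)
    have g3 := cover (x / d ^ 2) (hX d hd) (fun k => ‖Vd b q Y d k‖ ^ 2) (fun k => sq_nonneg _)
    have g4 : ∑ m ∈ Finset.Ioc x (2 * x), (2 : ℝ) = 2 * x := by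
      rw [Finset.sum_const, Nat.card_Ioc, nsmul_eq_mul]
      have : 2 * x - x = x := by omega
      rw [this]
      ring
    have g5 : ∑ m ∈ Finset.Ioc x (2 * x), ‖Vd b q Y d (m / d ^ 2)‖ ^ 2 ≤ 2 * S := by
      refine g2.trans ?_
      calc ((d ^ 2 : ℕ) : ℝ) * ∑ k ∈ Finset.Icc (x / d ^ 2) (2 * (x / d ^ 2) + 1), ‖Vd b q Y d k‖ ^ 2
          ≤ ((d ^ 2 : ℕ) : ℝ) * (S / (d : ℝ) ^ 2 + S / (d : ℝ) ^ 2) := by
            refine mul_le_mul_of_nonneg_left (g3.trans (add_le_add (h1 d hd) (h2 d hd))) ?_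
            positivity
        _ = 2 * S := by
            push_cast
            field_simp
            ring
    rw [g4]
    linarith
  have g1 : ∀ m ∈ Finset.Ioc x (2 * x),
      ‖∑ n ∈ Finset.Ioc m (m + Y), fV n * e ((b : ℝ) * n / q)‖ ^ 2 ≤
      2 * (D0 * ∑ d ∈ Finset.Icc 1 D0, ‖Wd b q Y d m‖ ^ 2) +
      2 * (((Finset.Ioc m (m + Y)).filter (fun n => ∃ d, D0 < d ∧ d ^ 2 ∣ n)).card : ℝ) ^ 2 := by
    intro m _
    have h3 := win_liou b q Y D0 m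
    have h4 : ‖∑ d ∈ Finset.Icc 1 D0, Wd b q Y d m‖ ^ 2 ≤
        D0 * ∑ d ∈ Finset.Icc 1 D0, ‖Wd b q Y d m‖ ^ 2 := by
      have h5 : ‖∑ d ∈ Finset.Icc 1 D0, Wd b q Y d m‖ ≤ ∑ d ∈ Finset.Icc 1 D0, ‖Wd b q Y d m‖ :=
        norm_sum_le _ _
      have h6 := sq_sum_le_card_mul_sum_sq (s := Finset.Icc 1 D0) (f := fun d => ‖Wd b q Y d m‖)
      rw [Nat.card_Icc, Nat.add_sub_cancel] at h6
      calc _ ≤ (∑ d ∈ Finset.Icc 1 D0, ‖Wd b q Y d m‖) ^ 2 :=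
            pow_le_pow_left₀ (norm_nonneg _) h5 2
        _ ≤ _ := h6
    have h7 := norm_nonneg (∑ n ∈ Finset.Ioc m (m + Y), fV n * e ((b : ℝ) * n / q))
    have h8 := norm_nonneg (∑ d ∈ Finset.Icc 1 D0, Wd b q Y d m)
    have h9 : (0 : ℝ) ≤ (((Finset.Ioc m (m + Y)).filter
      (fun n => ∃ d, D0 < d ∧ d ^ 2 ∣ n)).card : ℝ) := Nat.cast_nonneg _
    generalize (((Finset.Ioc m (m + Y)).filter
      (fun n => ∃ d, D0 < d ∧ d ^ 2 ∣ n)).card : ℝ) = B at *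
    generalize ‖∑ n ∈ Finset.Ioc m (m + Y), fV n * e ((b : ℝ) * n / q)‖ = A at *
    generalize ‖∑ d ∈ Finset.Icc 1 D0, Wd b q Y d m‖ = W at *
    nlinarith [sq_nonneg (W - B)]
  refine (Finset.sum_le_sum g1).trans ?_
  rw [Finset.sum_add_distrib]
  refine add_le_add ?_ ?_
  · rw [← Finset.mul_sum, ← Finset.mul_sum, Finset.sum_comm]
    have h3 : ∑ d ∈ Finset.Icc 1 D0, ∑ m ∈ Finset.Ioc x (2 * x), ‖Wd b q Y d m‖ ^ 2 ≤
        D0 * (4 * S + 2 * x) := by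
      refine (Finset.sum_le_sum hone).trans (le_of_eq ?_)
      rw [Finset.sum_const, Nat.card_Icc, Nat.add_sub_cancel, nsmul_eq_mul]
    calc _ ≤ 2 * ((D0 : ℝ) * (D0 * (4 * S + 2 * x))) := by gcongr
      _ = _ := by ring
  · rw [← Finset.mul_sum]
    exact mul_le_mul_of_nonneg_left (bad_sum x Y D0 hD hY) (by norm_num)

/-- the conditions of SIA at the points near `x' / d ^ 2` -/
lemma sia_at (E1 V C1 C2 C X2 U2 : ℕ) (hC : C = C1 + C2 + 2 * V + 4)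
    (hsia : ∀ x : ℕ, X2 ≤ x → ∀ q : ℕ, 1 ≤ q → (q : ℝ) ≤ Real.log x ^ (E1 + 1) →
      ∀ a Y : ℕ, (x : ℝ) ^ (1 / 3 : ℝ) * Real.log x ^ C2 ≤ Y → Y ≤ x →
      ∑ m ∈ Finset.Ioc x (2 * x), ‖∑ n ∈ Finset.Ioc m (m + Y),
          ((moebius n : ℤ) : ℂ) * e ((a : ℝ) * n / q)‖ ^ 2 ≤ x * (Y : ℝ) ^ 2 / Real.log x ^ U2)
    (x : ℕ) (hL0 : (36 : ℝ) ≤ Real.log x) (hL1 : (4 : ℝ) ^ (E1 + 1) ≤ Real.log x)
    (hL2 : 4 * (X2 : ℝ) ≤ Real.log x) (hL3 : (2 : ℝ) ^ (C2 + 2) ≤ Real.log x)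
    (hLx : Real.log x ^ (4 * (C1 + 2 * V)) ≤ x) (q : ℕ) (hq1 : 1 ≤ q)
    (hq : (q : ℝ) ≤ Real.log x ^ E1) (b Y : ℕ) (hY1 : (x : ℝ) ^ (1 / 3 : ℝ) * Real.log x ^ C ≤ Y)
    (hY2 : (Y : ℝ) * Real.log x ^ C ≤ x) (x' : ℕ) (hx1 : (x : ℝ) ≤ x' * Real.log x ^ C1)
    (hx2 : x' ≤ x) (d : ℕ) (hd1 : 1 ≤ d) (hdL : (d : ℝ) ≤ Real.log x ^ V) (X : ℕ)
    (hX1 : (x' : ℝ) / (d : ℝ) ^ 2 / 2 ≤ X) (hX2 : (X : ℝ) ≤ 2 * ((x' : ℝ) / (d : ℝ) ^ 2)) :
    ∑ k ∈ Finset.Ioc X (2 * X), ‖Vd b q Y d k‖ ^ 2 ≤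
      (2 * 4 ^ U2 * (x' * (Y : ℝ) ^ 2) / Real.log x ^ U2) / (d : ℝ) ^ 2 := by
  obtain ⟨L, hL⟩ : ∃ L, L = Real.log x := ⟨_, rfl⟩
  rw [← hL] at hL0 hL1 hL2 hL3 hLx hq hY1 hY2 hx1 hdL ⊢
  have hL00 : (0 : ℝ) < L := by linarith
  have hL11 : (1 : ℝ) ≤ L := by linarith
  have hd0 : (0 : ℝ) < d := by exact_mod_cast hd1
  have hd1' : (1 : ℝ) ≤ (d : ℝ) ^ 2 := one_le_pow₀ (by exact_mod_cast hd1)
  obtain ⟨t, ht⟩ : ∃ t, t = (x' : ℝ) / (d : ℝ) ^ 2 := ⟨_, rfl⟩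
  rw [← ht] at hX1 hX2
  have hx0 : (0 : ℝ) < x := by
    by_contra h
    have h1 : (x : ℝ) = 0 := le_antisymm (not_lt.1 h) (Nat.cast_nonneg _)
    rw [h1, Real.log_zero] at hL
    linarith
  have hxL : L ≤ x := by
    have h1 := Real.log_le_sub_one_of_pos hx0
    rw [hL]
    linarith
  have hx2' : (x' : ℝ) ≤ x := by exact_mod_cast hx2
  have hdV : (d : ℝ) ^ 2 ≤ L ^ (2 * V) := by
    calc (d : ℝ) ^ 2 ≤ (L ^ V) ^ 2 := pow_le_pow_left₀ hd0.le hdL 2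
      _ = L ^ (2 * V) := by rw [← pow_mul, mul_comm]
  -- lower bound of t
  have htx : (x : ℝ) / L ^ (C1 + 2 * V) ≤ t := by
    rw [ht, div_le_div_iff₀ (by positivity) (by positivity)]
    calc (x : ℝ) * (d : ℝ) ^ 2 ≤ (x' * L ^ C1) * L ^ (2 * V) := by
          gcongr
      _ = x' * L ^ (C1 + 2 * V) := by rw [pow_add]; ring
  have ht0 : 0 < t := lt_of_lt_of_le (by positivity) htx
  have htx2 : t ≤ x := by
    rw [ht, div_le_iff₀ (by positivity)]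
    nlinarith
  have hX0 : (0 : ℝ) < X := lt_of_lt_of_le (by positivity) hX1
  -- logarithms
  have hkL : ((C1 + 2 * V : ℕ) : ℝ) * Real.log L ≤ L / 4 := by
    have h1 := Real.log_le_log (by positivity) hLx
    rw [Real.log_pow, ← hL] at h1
    push_cast at h1 ⊢
    linarith
  have hlt : L - L / 4 ≤ Real.log t := by
    have h1 := Real.log_le_log (by positivity) htx
    rw [Real.log_div hx0.ne' (by positivity), Real.log_pow, ← hL] at h1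
    linarith
  have hlX : L / 4 ≤ Real.log X := by
    have h1 := Real.log_le_log (by positivity) hX1
    rw [Real.log_div ht0.ne' (by norm_num)] at h1
    have h2 : Real.log 2 ≤ 1 := by
      have := Real.log_two_lt_d9
      linarith
    linarith
  have hlX2 : Real.log X ≤ 2 * L := by
    have h1 : (X : ℝ) ≤ x * x := by
      have h2 : (2 : ℝ) ≤ x := by linarith
      nlinarith
    have h3 := Real.log_le_log hX0 h1
    rw [Real.log_mul hx0.ne' hx0.ne', ← hL] at h3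
    linarith
  have hlX0 : 0 < Real.log X := by linarith
  -- the conditions
  have c1 : X2 ≤ X := by
    have h1 := Real.log_le_sub_one_of_pos hX0
    have h2 : (X2 : ℝ) ≤ X := by linarith
    exact_mod_cast h2
  have c2 : (q : ℝ) ≤ Real.log X ^ (E1 + 1) := by
    have h1 : L ≤ 4 * Real.log X := by linarith
    have h2 : (4 : ℝ) ^ E1 ≤ Real.log X := by
      rw [pow_succ] at hL1
      linarith
    calc (q : ℝ) ≤ L ^ E1 := hq
      _ ≤ (4 * Real.log X) ^ E1 := pow_le_pow_left₀ hL00.le h1 _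
      _ = 4 ^ E1 * Real.log X ^ E1 := mul_pow _ _ _
      _ ≤ Real.log X * Real.log X ^ E1 := by gcongr
      _ = _ := by rw [pow_succ]; ring
  have hYd : (Y : ℝ) / (d : ℝ) ^ 2 - 1 ≤ ((Y / d ^ 2 : ℕ) : ℝ) := by
    have h1 : (Y : ℝ) < (d : ℝ) ^ 2 * (((Y / d ^ 2 : ℕ) : ℝ) + 1) := by
      have h2 : Y < d ^ 2 * (Y / d ^ 2 + 1) := Nat.lt_mul_div_succ Y (by positivity)
      have h3 : ((Y : ℕ) : ℝ) < ((d ^ 2 * (Y / d ^ 2 + 1) : ℕ) : ℝ) := by exact_mod_cast h2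
      push_cast at h3
      exact_mod_cast h3
    have h2 : (Y : ℝ) / (d : ℝ) ^ 2 < ((Y / d ^ 2 : ℕ) : ℝ) + 1 := by
      rw [div_lt_iff₀ (by positivity), mul_comm]
      exact h1
    linarith
  have hYd2 : ((Y / d ^ 2 : ℕ) : ℝ) ≤ (Y : ℝ) / (d : ℝ) ^ 2 := by
    have h1 := Nat.cast_div_le (α := ℝ) (m := Y) (n := d ^ 2)
    push_cast at h1
    exact_mod_cast h1
  have hx3 : (1 : ℝ) ≤ (x : ℝ) ^ (1 / 3 : ℝ) := Real.one_le_rpow (by linarith) (by norm_num)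
  have c3 : (X : ℝ) ^ (1 / 3 : ℝ) * Real.log X ^ C2 ≤ ((Y / d ^ 2 : ℕ) : ℝ) := by
    refine le_trans ?_ hYd
    have h1 : (X : ℝ) ^ (1 / 3 : ℝ) ≤ 2 * (x : ℝ) ^ (1 / 3 : ℝ) := by
      calc (X : ℝ) ^ (1 / 3 : ℝ) ≤ (2 * (x : ℝ)) ^ (1 / 3 : ℝ) := by
            apply Real.rpow_le_rpow hX0.le _ (by norm_num)
            linarith
        _ = (2 : ℝ) ^ (1 / 3 : ℝ) * (x : ℝ) ^ (1 / 3 : ℝ) := Real.mul_rpow (by norm_num) hx0.le
        _ ≤ 2 * (x : ℝ) ^ (1 / 3 : ℝ) := by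
            gcongr
            calc (2 : ℝ) ^ (1 / 3 : ℝ) ≤ (2 : ℝ) ^ (1 : ℝ) :=
                  Real.rpow_le_rpow_of_exponent_le (by norm_num) (by norm_num)
              _ = 2 := Real.rpow_one 2
    have h2 : Real.log X ^ C2 ≤ 2 ^ C2 * L ^ C2 := by
      rw [← mul_pow]
      exact pow_le_pow_left₀ hlX0.le hlX2 _
    have h3 : (x : ℝ) ^ (1 / 3 : ℝ) * L ^ (C1 + C2 + 4) ≤ (Y : ℝ) / (d : ℝ) ^ 2 := by
      rw [le_div_iff₀ (by positivity)]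
      calc (x : ℝ) ^ (1 / 3 : ℝ) * L ^ (C1 + C2 + 4) * (d : ℝ) ^ 2
          ≤ (x : ℝ) ^ (1 / 3 : ℝ) * L ^ (C1 + C2 + 4) * L ^ (2 * V) := by gcongr
        _ = (x : ℝ) ^ (1 / 3 : ℝ) * L ^ C := by
            rw [hC, mul_assoc, ← pow_add]
            congr 2
            ring
        _ ≤ Y := hY1
    have h4 : L ^ C2 * (2 ^ (C2 + 1) + 1) ≤ L ^ (C1 + C2 + 4) := by
      have h5 : (2 : ℝ) ^ (C2 + 1) + 1 ≤ L := by
        have h6 : (1 : ℝ) ≤ 2 ^ (C2 + 1) := one_le_pow₀ (by norm_num)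
        rw [pow_succ] at hL3
        linarith
      calc L ^ C2 * (2 ^ (C2 + 1) + 1) ≤ L ^ C2 * L := by gcongr
        _ = L ^ (C2 + 1) := (pow_succ _ _).symm
        _ ≤ L ^ (C1 + C2 + 4) := pow_le_pow_right₀ hL11 (by omega)
    have h5 : (1 : ℝ) ≤ L ^ C2 := one_le_pow₀ hL11
    obtain ⟨r, hr⟩ : ∃ r, r = (x : ℝ) ^ (1 / 3 : ℝ) := ⟨_, rfl⟩
    rw [← hr] at h1 h3 hx3
    have h6 : (X : ℝ) ^ (1 / 3 : ℝ) * Real.log X ^ C2 ≤ 2 * r * (2 ^ C2 * L ^ C2) := by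
      gcongr
    have h7 : r * (L ^ C2 * (2 ^ (C2 + 1) + 1)) ≤ r * L ^ (C1 + C2 + 4) := by gcongr
    have h8 : 2 * r * (2 ^ C2 * L ^ C2) + 1 ≤ r * (L ^ C2 * (2 ^ (C2 + 1) + 1)) := by
      have h9 : 1 ≤ r * L ^ C2 := one_le_mul_of_one_le_of_one_le hx3 h5
      have h10 : r * (L ^ C2 * (2 ^ (C2 + 1) + 1)) = 2 * r * (2 ^ C2 * L ^ C2) + r * L ^ C2 := by
        rw [pow_succ]
        ring
      rw [h10]
      linarith
    linarith
  have c4 : Y / d ^ 2 ≤ X := by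
    have h1 : (Y : ℝ) / (d : ℝ) ^ 2 ≤ t / 2 := by
      rw [ht, div_div, div_le_div_iff₀ (by positivity) (by positivity)]
      have h2 : (Y : ℝ) * L ^ C ≤ x' * L ^ C1 := hY2.trans hx1
      have h3 : L ^ C = L ^ C1 * L ^ (C2 + 2 * V + 4) := by
        rw [← pow_add, hC]
        congr 1
        ring
      rw [h3] at h2
      have h4 : (Y : ℝ) * L ^ (C2 + 2 * V + 4) ≤ x' := by
        have h5 : 0 < L ^ C1 := by positivity
        by_contra hc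
        push Not at hc
        have := mul_lt_mul_of_pos_right hc h5
        linarith
      have h5 : (2 : ℝ) ≤ L ^ (C2 + 2 * V + 4) := by
        calc (2 : ℝ) ≤ L := by linarith
          _ = L ^ 1 := (pow_one L).symm
          _ ≤ _ := pow_le_pow_right₀ hL11 (by omega)
      have h6 : (Y : ℝ) * 2 ≤ x' := by
        have : (Y : ℝ) * 2 ≤ Y * L ^ (C2 + 2 * V + 4) := by gcongr
        linarith
      nlinarith
    have h2 : ((Y / d ^ 2 : ℕ) : ℝ) ≤ X := hYd2.trans (h1.trans hX1)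
    exact_mod_cast h2
  have hmain := hsia X c1 q hq1 c2 (b * d ^ 2) (Y / d ^ 2) c3 c4
  have hmain' : ∑ k ∈ Finset.Ioc X (2 * X), ‖Vd b q Y d k‖ ^ 2 ≤
      X * ((Y / d ^ 2 : ℕ) : ℝ) ^ 2 / Real.log X ^ U2 := hmain
  refine hmain'.trans ?_
  have hY3 : ((Y / d ^ 2 : ℕ) : ℝ) ≤ Y := by
    refine hYd2.trans ?_
    rw [div_le_iff₀ (by positivity)]
    have : (0 : ℝ) ≤ Y := Nat.cast_nonneg _
    nlinarith
  have hlU : (L / 4) ^ U2 ≤ Real.log X ^ U2 := pow_le_pow_left₀ (by positivity) hlX _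
  calc (X : ℝ) * ((Y / d ^ 2 : ℕ) : ℝ) ^ 2 / Real.log X ^ U2
      ≤ (2 * t) * (Y : ℝ) ^ 2 / (L / 4) ^ U2 := by
        gcongr
    _ = _ := by
        rw [ht, div_pow]
        field_simp

theorem wv : S_SIA → S_COV → S_WV := by
  intro hSIA hCOV E1 U1
  obtain ⟨C1, x1, hcov⟩ := hCOV U1
  obtain ⟨V, hV⟩ : ∃ V, V = U1 + 3 := ⟨_, rfl⟩
  obtain ⟨U2, hU2⟩ : ∃ U2, U2 = U1 + 2 * V + 4 := ⟨_, rfl⟩
  obtain ⟨C2, X2, hsia⟩ := hSIA (E1 + 1) U2
  obtain ⟨C, hC⟩ : ∃ C, C = C1 + C2 + 2 * V + 4 := ⟨_, rfl⟩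
  obtain ⟨c0, hc0⟩ : ∃ c0 : ℝ, c0 = 36 + 4 ^ (E1 + 1) + 4 * (X2 : ℝ) + 2 ^ (C2 + 2) + 48 * 4 ^ U2 :=
    ⟨_, rfl⟩
  have hev : ∀ᶠ x : ℕ in atTop, c0 ≤ Real.log x ∧ Real.log x ^ (4 * (C1 + 2 * V)) ≤ x ∧ x1 ≤ x := by
    have e1 : ∀ᶠ x : ℕ in atTop, c0 ≤ Real.log x :=
      (Real.tendsto_log_atTop.comp tendsto_natCast_atTop_atTop).eventually_ge_atTop c0
    have e2 : ∀ᶠ x : ℝ in atTop, Real.log x ^ (4 * (C1 + 2 * V)) ≤ x := by
      have h1 := (Real.isLittleO_pow_log_id_atTop (n := 4 * (C1 + 2 * V))).bound one_pos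
      filter_upwards [h1, eventually_ge_atTop 0] with x hx hx0
      rw [one_mul, id, Real.norm_eq_abs, Real.norm_eq_abs, abs_of_nonneg hx0] at hx
      exact (le_abs_self _).trans hx
    have e2' := tendsto_natCast_atTop_atTop (R := ℝ) |>.eventually e2
    filter_upwards [e1, e2', eventually_ge_atTop x1] with x h1 h2 h3
    exact ⟨h1, h2, h3⟩
  obtain ⟨x0, hx0⟩ := eventually_atTop.1 hev
  refine ⟨C, x0, fun x hx => ?_⟩
  obtain ⟨hL, hLx, hx1⟩ := hx0 x hx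
  intro q hq1 hq b Y hY1 hY2
  have p1 : (0 : ℝ) < 4 ^ (E1 + 1) := by positivity
  have p2 : (0 : ℝ) ≤ 4 * (X2 : ℝ) := by positivity
  have p3 : (0 : ℝ) < 2 ^ (C2 + 2) := by positivity
  have p4 : (0 : ℝ) < 48 * 4 ^ U2 := by positivity
  have hL0 : (36 : ℝ) ≤ Real.log x := by linarith
  have hL1 : (4 : ℝ) ^ (E1 + 1) ≤ Real.log x := by linarith
  have hL2 : 4 * (X2 : ℝ) ≤ Real.log x := by linarith
  have hL3 : (2 : ℝ) ^ (C2 + 2) ≤ Real.log x := by linarith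
  have hL4 : (48 : ℝ) * 4 ^ U2 ≤ Real.log x := by linarith
  have hLL : (1 : ℝ) ≤ Real.log x := by linarith
  have hLp : (0 : ℝ) < Real.log x := by linarith
  have hx00 : (0 : ℝ) < x := by
    by_contra h
    have h1 : (x : ℝ) = 0 := le_antisymm (not_lt.1 h) (Nat.cast_nonneg _)
    rw [h1, Real.log_zero] at hL0
    linarith
  have hxL : Real.log x ≤ x := by
    have h1 := Real.log_le_sub_one_of_pos hx00
    linarith
  have hx3 : (1 : ℝ) ≤ (x : ℝ) ^ (1 / 3 : ℝ) := Real.one_le_rpow (by linarith) (by norm_num)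
  have hYC : Real.log x ^ C ≤ Y := by
    refine le_trans ?_ hY1
    have : 0 ≤ Real.log x ^ C := by positivity
    nlinarith
  have hY1' : (1 : ℝ) ≤ Y := (one_le_pow₀ hLL).trans hYC
  have hcut : ∀ m : ℕ, ∑ n ∈ Finset.Ioc (m - Y) m, cut x fV n * e ((b : ℝ) * n / q) =
      ∑ n ∈ Finset.Ioc (m - Y) m, cut x (fun n => fV n * e ((b : ℝ) * n / q)) n := by
    intro m
    refine Finset.sum_congr rfl fun n _ => ?_
    unfold cut
    split_ifs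
    · rfl
    · rw [zero_mul]
  simp only [hcut]
  refine hcov x hx1 (fun n => fV n * e ((b : ℝ) * n / q)) Y ?_ (by exact_mod_cast hY1') ?_ ?_
  · intro n _
    have h1 : ‖fV n * e ((b : ℝ) * n / q)‖ ≤ 1 := by
      rw [norm_mul, norm_eR, mul_one]
      unfold fV
      rcases Nat.eq_zero_or_pos n with h | h
      · subst h
        simp
      · rw [ArithmeticFunction.liouville_apply (by omega)]
        simp
    exact h1.trans (one_le_pow₀ hLL)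
  · refine le_trans ?_ hY2
    gcongr
    omega
  · intro x' hx'1 hx'2
    obtain ⟨L, hLdef⟩ : ∃ L, L = Real.log x := ⟨_, rfl⟩
    have hfl : ((⌊L ^ V⌋₊ : ℕ) : ℝ) ≤ L ^ V := Nat.floor_le (by rw [hLdef]; positivity)
    have hLV1 : (1 : ℝ) ≤ L ^ V := one_le_pow₀ (by rw [hLdef]; exact hLL)
    have hfl2 : L ^ V / 2 ≤ ((⌊L ^ V⌋₊ : ℕ) : ℝ) := by
      have h1 := Nat.lt_floor_add_one (L ^ V)
      have h2 : 1 ≤ ⌊L ^ V⌋₊ := Nat.le_floor (by exact_mod_cast hLV1)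
      have h3 : (1 : ℝ) ≤ ((⌊L ^ V⌋₊ : ℕ) : ℝ) := by exact_mod_cast h2
      linarith
    obtain ⟨D0, hD0⟩ : ∃ D0, D0 = ⌊L ^ V⌋₊ := ⟨_, rfl⟩
    rw [← hD0] at hfl hfl2
    have hD1 : 1 ≤ D0 := by
      rw [hD0]
      exact Nat.le_floor (by exact_mod_cast hLV1)
    have hD0r : (0 : ℝ) < D0 := by exact_mod_cast hD1
    have hdL : ∀ d ∈ Finset.Icc 1 D0, (d : ℝ) ≤ Real.log x ^ V := by
      intro d hd
      have h1 : (d : ℝ) ≤ D0 := by exact_mod_cast (Finset.mem_Icc.1 hd).2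
      rw [← hLdef]
      exact h1.trans hfl
    -- the quotients
    have ht4 : ∀ d ∈ Finset.Icc 1 D0, (4 : ℝ) ≤ (x' : ℝ) / (d : ℝ) ^ 2 := by
      intro d hd
      have hd1 : 1 ≤ d := (Finset.mem_Icc.1 hd).1
      have hd0 : (0 : ℝ) < d := by exact_mod_cast hd1
      rw [le_div_iff₀ (by positivity)]
      have h1 : (d : ℝ) ^ 2 ≤ L ^ (2 * V) := by
        calc (d : ℝ) ^ 2 ≤ (L ^ V) ^ 2 := pow_le_pow_left₀ hd0.le (by rw [hLdef]; exact hdL d hd) 2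
          _ = L ^ (2 * V) := by rw [← pow_mul, mul_comm]
      have h2 : L ^ (4 * (C1 + 2 * V)) ≤ x' * L ^ C1 := by
        rw [hLdef]
        exact hLx.trans hx'1
      rw [hLdef] at h1 h2
      have h3 : Real.log x ^ (4 * (C1 + 2 * V)) = Real.log x ^ (3 * C1 + 8 * V) * Real.log x ^ C1 := by
        rw [← pow_add]
        congr 1
        ring
      rw [h3] at h2
      have h4 : Real.log x ^ (3 * C1 + 8 * V) ≤ x' := by
        have h5 : 0 < Real.log x ^ C1 := by positivity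
        by_contra hc
        push Not at hc
        have := mul_lt_mul_of_pos_right hc h5
        linarith
      calc 4 * (d : ℝ) ^ 2 ≤ Real.log x * Real.log x ^ (2 * V) := by
            gcongr
            linarith
        _ = Real.log x ^ (2 * V + 1) := by rw [pow_succ]; ring
        _ ≤ Real.log x ^ (3 * C1 + 8 * V) := pow_le_pow_right₀ hLL (by omega)
        _ ≤ x' := h4
    have hfd : ∀ d ∈ Finset.Icc 1 D0, (x' : ℝ) / (d : ℝ) ^ 2 - 1 ≤ ((x' / d ^ 2 : ℕ) : ℝ) ∧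
        ((x' / d ^ 2 : ℕ) : ℝ) ≤ (x' : ℝ) / (d : ℝ) ^ 2 := by
      intro d hd
      have hd1 : 1 ≤ d := (Finset.mem_Icc.1 hd).1
      have hd0 : (0 : ℝ) < d := by exact_mod_cast hd1
      constructor
      · have h2 : x' < d ^ 2 * (x' / d ^ 2 + 1) := Nat.lt_mul_div_succ x' (by positivity)
        have h3 : ((x' : ℕ) : ℝ) < ((d ^ 2 * (x' / d ^ 2 + 1) : ℕ) : ℝ) := by exact_mod_cast h2
        have h4 : (x' : ℝ) < (d : ℝ) ^ 2 * (((x' / d ^ 2 : ℕ) : ℝ) + 1) := by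
          rw [Nat.cast_mul, Nat.cast_add, Nat.cast_one, Nat.cast_pow] at h3
          exact h3
        have h5 : (x' : ℝ) / (d : ℝ) ^ 2 < ((x' / d ^ 2 : ℕ) : ℝ) + 1 := by
          rw [div_lt_iff₀ (by positivity), mul_comm]
          exact h4
        linarith
      · have h1 := Nat.cast_div_le (α := ℝ) (m := x') (n := d ^ 2)
        rw [Nat.cast_pow] at h1
        exact h1
    have hX3 : ∀ d ∈ Finset.Icc 1 D0, 3 ≤ x' / d ^ 2 := by
      intro d hd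
      have h1 := (hfd d hd).1
      have h2 := ht4 d hd
      have h3 : (3 : ℝ) ≤ ((x' / d ^ 2 : ℕ) : ℝ) := by linarith
      exact_mod_cast h3
    have hYx' : Y ≤ x' := by
      have h2 : (Y : ℝ) * Real.log x ^ C ≤ x' * Real.log x ^ C1 := hY2.trans hx'1
      have h3 : Real.log x ^ C1 ≤ Real.log x ^ C := pow_le_pow_right₀ hLL (by omega)
      have h4 : (Y : ℝ) * Real.log x ^ C1 ≤ x' * Real.log x ^ C1 := by
        refine le_trans ?_ h2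
        gcongr
      have h5 : (Y : ℝ) ≤ x' := le_of_mul_le_mul_right h4 (by positivity)
      exact_mod_cast h5
    obtain ⟨S, hS⟩ : ∃ S, S = 2 * 4 ^ U2 * (x' * (Y : ℝ) ^ 2) / Real.log x ^ U2 := ⟨_, rfl⟩
    have hS0 : 0 ≤ S := by rw [hS]; positivity
    have hsia' : ∀ x : ℕ, X2 ≤ x → ∀ q : ℕ, 1 ≤ q → (q : ℝ) ≤ Real.log x ^ (E1 + 1) →
        ∀ a Y : ℕ, (x : ℝ) ^ (1 / 3 : ℝ) * Real.log x ^ C2 ≤ Y → Y ≤ x →
        ∑ m ∈ Finset.Ioc x (2 * x), ‖∑ n ∈ Finset.Ioc m (m + Y),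
          ((moebius n : ℤ) : ℂ) * e ((a : ℝ) * n / q)‖ ^ 2 ≤ x * (Y : ℝ) ^ 2 / Real.log x ^ U2 :=
      fun x h1 q h2 h3 a Y h4 h5 => (hsia x h1 q h2 h3 a Y h4 h5).2
    have hms := ms b q Y D0 x' hD1 hYx' S hS0 hX3 (fun d hd => by
        have hd1 : 1 ≤ d := (Finset.mem_Icc.1 hd).1
        rw [hS]
        have h3 := hX3 d hd
        have h4 : ((x' / d ^ 2 - 1 : ℕ) : ℝ) = ((x' / d ^ 2 : ℕ) : ℝ) - 1 := by
          rw [Nat.cast_sub (by omega), Nat.cast_one]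
        refine sia_at E1 V C1 C2 C X2 U2 hC hsia' x hL0 hL1 hL2 hL3 hLx q hq1 hq b Y hY1 hY2 x' hx'1
          hx'2 d hd1 (hdL d hd) _ ?_ ?_
        · rw [h4]
          linarith [(hfd d hd).1, ht4 d hd]
        · rw [h4]
          linarith [(hfd d hd).2, ht4 d hd]) (fun d hd => by
        have hd1 : 1 ≤ d := (Finset.mem_Icc.1 hd).1
        rw [hS]
        refine sia_at E1 V C1 C2 C X2 U2 hC hsia' x hL0 hL1 hL2 hL3 hLx q hq1 hq b Y hY1 hY2 x' hx'1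
          hx'2 d hd1 (hdL d hd) _ ?_ ?_
        · rw [Nat.cast_add, Nat.cast_one]
          linarith [(hfd d hd).1, ht4 d hd]
        · rw [Nat.cast_add, Nat.cast_one]
          linarith [(hfd d hd).2, ht4 d hd])
    refine hms.trans ?_
    rw [← hLdef] at hS hYC hL0 hL4 ⊢
    have hL0' : 0 < L := by linarith
    have hx'0 : (0 : ℝ) ≤ x' := Nat.cast_nonneg _
    have hY0 : (0 : ℝ) ≤ Y := Nat.cast_nonneg _
    -- three terms
    have t1 : 2 * (D0 : ℝ) ^ 2 * (4 * S) ≤ x' * (Y : ℝ) ^ 2 / L ^ (U1 + 2) / 3 := by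
      have h1 : (D0 : ℝ) ^ 2 ≤ L ^ (2 * V) := by
        calc (D0 : ℝ) ^ 2 ≤ (L ^ V) ^ 2 := pow_le_pow_left₀ hD0r.le hfl 2
          _ = L ^ (2 * V) := by rw [← pow_mul, mul_comm]
      have h2 : L ^ U2 = L ^ (2 * V) * (L * L) * L ^ (U1 + 2) := by
        rw [hU2, ← sq, ← pow_add, ← pow_add]
        congr 1
        ring
      calc 2 * (D0 : ℝ) ^ 2 * (4 * S) ≤ 2 * L ^ (2 * V) * (4 * S) := by gcongr
        _ = (16 * 4 ^ U2) * (x' * (Y : ℝ) ^ 2) / (L * L) / L ^ (U1 + 2) := by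
            rw [hS, h2]
            field_simp
            ring
        _ ≤ (x' * (Y : ℝ) ^ 2) / 3 / L ^ (U1 + 2) := by
            apply div_le_div_of_nonneg_right _ (by positivity)
            rw [div_le_div_iff₀ (by positivity) (by norm_num)]
            have h3 : 48 * 4 ^ U2 ≤ L * L := by nlinarith
            have h4 : 0 ≤ x' * (Y : ℝ) ^ 2 := by positivity
            nlinarith
        _ = _ := by ring
    have t2 : 2 * (D0 : ℝ) ^ 2 * (2 * x') ≤ x' * (Y : ℝ) ^ 2 / L ^ (U1 + 2) / 3 := by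
      have h1 : (D0 : ℝ) ^ 2 ≤ L ^ (2 * V) := by
        calc (D0 : ℝ) ^ 2 ≤ (L ^ V) ^ 2 := pow_le_pow_left₀ hD0r.le hfl 2
          _ = L ^ (2 * V) := by rw [← pow_mul, mul_comm]
      have h2 : 12 * L ^ (2 * V) * L ^ (U1 + 2) ≤ (Y : ℝ) ^ 2 := by
        calc 12 * L ^ (2 * V) * L ^ (U1 + 2) ≤ L * L ^ (2 * V) * L ^ (U1 + 2) := by
              gcongr
              linarith
          _ = L ^ (1 + 2 * V + (U1 + 2)) := by
              rw [pow_add L (1 + 2 * V) (U1 + 2), pow_add L 1 (2 * V), pow_one]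
          _ ≤ L ^ (C * 2) := pow_le_pow_right₀ (by linarith) (by omega)
          _ = (L ^ C) ^ 2 := pow_mul _ _ _
          _ ≤ (Y : ℝ) ^ 2 := pow_le_pow_left₀ (by positivity) hYC 2
      rw [div_div, le_div_iff₀ (by positivity)]
      calc 2 * (D0 : ℝ) ^ 2 * (2 * x') * (L ^ (U1 + 2) * 3)
          ≤ 2 * L ^ (2 * V) * (2 * x') * (L ^ (U1 + 2) * 3) := by gcongr
        _ = x' * (12 * L ^ (2 * V) * L ^ (U1 + 2)) := by ring
        _ ≤ x' * (Y : ℝ) ^ 2 := by gcongr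
    have t3 : 2 * ((Y : ℝ) * (Y * (3 * x' / D0))) ≤ x' * (Y : ℝ) ^ 2 / L ^ (U1 + 2) / 3 := by
      have h1 : (3 * x' / D0 : ℝ) ≤ 6 * x' / L ^ V := by
        rw [div_le_div_iff₀ hD0r (by positivity)]
        nlinarith
      have h2 : L ^ V = L ^ (U1 + 2) * L := by
        rw [← pow_succ, hV]
      calc 2 * ((Y : ℝ) * (Y * (3 * x' / D0))) ≤ 2 * ((Y : ℝ) * (Y * (6 * x' / L ^ V))) := by
            gcongr
        _ = 12 * (x' * (Y : ℝ) ^ 2) / L / L ^ (U1 + 2) := by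
            rw [h2]
            field_simp
            ring
        _ ≤ (x' * (Y : ℝ) ^ 2) / 3 / L ^ (U1 + 2) := by
            apply div_le_div_of_nonneg_right _ (by positivity)
            rw [div_le_div_iff₀ (by positivity) (by norm_num)]
            have h4 : 0 ≤ x' * (Y : ℝ) ^ 2 := by positivity
            nlinarith
        _ = _ := by ring
    calc 2 * (D0 : ℝ) ^ 2 * (4 * S + 2 * x') + 2 * (Y * (Y * (3 * x' / D0)))
        = 2 * (D0 : ℝ) ^ 2 * (4 * S) + 2 * (D0 : ℝ) ^ 2 * (2 * x') +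
          2 * ((Y : ℝ) * (Y * (3 * x' / D0))) := by ring
      _ ≤ x' * (Y : ℝ) ^ 2 / L ^ (U1 + 2) / 3 + x' * (Y : ℝ) ^ 2 / L ^ (U1 + 2) / 3 +
          x' * (Y : ℝ) ^ 2 / L ^ (U1 + 2) / 3 := add_le_add (add_le_add t1 t2) t3
      _ = _ := by ring

end Pool.Agent.Q53.CR
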